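import Mathlib

/-!
# Idempotents on Hilbert modules satisfying a ternary identity

We show that a linear idempotent `EE` of a Hilbert module `E` onto a closed ternary subspace `F`
satisfying `EE (EE x ⟨y, EE z⟩) = EE x ⟨EE y, EE z⟩` need not be a conditional expectation of `E`
onto `F`, even when it is bounded and `E` is two-dimensional.
-/

namespace Pool.Agent.Results.MP_0a1256_an.TernaryIdempotent

/-- A (right) Hilbert `B`-module structure on a complex Banach space `E` over the C*-algebra `B`: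
a right action `act x b = x b`, and a `B`-valued inner product `ip x y = ⟨x, y⟩`, linear in the
second variable, with `⟨x, y b⟩ = ⟨x, y⟩ b`, `⟨x, y⟩^* = ⟨y, x⟩`, `⟨x, x⟩` positive (of the form
`b^* b`), and `‖x‖ ^ 2 = ‖⟨x, x⟩‖`. -/
class HilbertModule (B E : Type*) [NonUnitalCStarAlgebra B]
    [NormedAddCommGroup E] [NormedSpace ℂ E] [CompleteSpace E] where
  /-- the right action `x b` -/
  act : E → B → E
  /-- the inner product `⟨x, y⟩` -/
  ip : E → E → B
  act_add : ∀ (x : E) (b c : B), act x (b + c) = act x b + act x c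
  add_act : ∀ (x y : E) (b : B), act (x + y) b = act x b + act y b
  act_mul : ∀ (x : E) (b c : B), act x (b * c) = act (act x b) c
  smul_act : ∀ (t : ℂ) (x : E) (b : B), act (t • x) b = t • act x b
  act_smul : ∀ (t : ℂ) (x : E) (b : B), act x (t • b) = t • act x b
  ip_add : ∀ x y z : E, ip x (y + z) = ip x y + ip x z
  ip_smul : ∀ (t : ℂ) (x y : E), ip x (t • y) = t • ip x y
  ip_act : ∀ (x y : E) (b : B), ip x (act y b) = ip x y * b
  star_ip : ∀ x y : E, star (ip x y) = ip y x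
  ip_self_pos : ∀ x : E, ∃ b : B, ip x x = star b * b
  norm_sq_eq : ∀ x : E, ‖x‖ ^ 2 = ‖ip x x‖

open HilbertModule

section General

variable (B : Type*) {E : Type*} [NonUnitalCStarAlgebra B]
  [NormedAddCommGroup E] [NormedSpace ℂ E] [CompleteSpace E] [HilbertModule B E]

/-- The ternary product `x ⟨y, z⟩` of `E`. -/
def tern (x y z : E) : E := act x (ip y z : B)

/-- `F` is a closed ternary subspace of `E`: a closed linear subspace with `x ⟨y, z⟩ ∈ F` for all
`x, y, z ∈ F`. -/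
def IsClosedTernary (F : Submodule ℂ E) : Prop :=
  IsClosed (F : Set E) ∧ ∀ x ∈ F, ∀ y ∈ F, ∀ z ∈ F, tern B x y z ∈ F

/-- `EE` is a linear idempotent with range `F` satisfying the ternary identity
`EE (EE x ⟨y, EE z⟩) = EE x ⟨EE y, EE z⟩` for all `x, y, z ∈ E`. -/
structure IsTernaryIdempotent (F : Submodule ℂ E) (EE : E →ₗ[ℂ] E) : Prop where
  idempotent : ∀ x, EE (EE x) = EE x
  range_eq : LinearMap.range EE = F
  identity : ∀ x y z, EE (tern B (EE x) y (EE z)) = tern B (EE x) (EE y) (EE z)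

/-- The `11`-corner for `F`: the closed linear span of `⟨F, F⟩` in `B`. -/
def corner11 (F : Submodule ℂ E) : Submodule ℂ B :=
  (Submodule.span ℂ {b : B | ∃ x ∈ F, ∃ y ∈ F, b = ip x y}).topologicalClosure

/-- The `22`-corner `K(F)` for `F`: the closed linear span, in the bounded operators on `E`, of the
operators `x y^* : z ↦ x ⟨y, z⟩` with `x, y ∈ F`. -/
noncomputable def corner22 (F : Submodule ℂ E) : Submodule ℂ (E →L[ℂ] E) :=
  (Submodule.span ℂ
    {k : E →L[ℂ] E | ∃ x ∈ F, ∃ y ∈ F, ∀ z : E, k z = tern B x y z}).topologicalClosure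

/-- A two by two block matrix with entries `b11 ∈ B`, `b12^*` (the functional `z ↦ ⟨b12, z⟩`),
`b21 ∈ E` and an operator `b22` on `E`. -/
structure Block (B E : Type*) [NonUnitalCStarAlgebra B] [NormedAddCommGroup E]
    [NormedSpace ℂ E] where
  /-- the entry `b11` in `B` -/
  b11 : B
  /-- the element `y` of `E` for which the `12`-entry is `y^*` -/
  b12 : E
  /-- the entry in the `21`-corner `E` -/
  b21 : E
  /-- the entry in the `22`-corner, an operator on `E` -/
  b22 : E →L[ℂ] E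

/-- The block matrix `T` lies in the reduced linking algebra of `F`, i.e. in the space of matrices
with corners `⟨F, F⟩` (closed span), `F^*`, `F`, `K(F)`. For `F = ⊤` this is the reduced linking
algebra of `E`. -/
def InLinking (F : Submodule ℂ E) (T : Block B E) : Prop :=
  T.b11 ∈ corner11 B F ∧ T.b12 ∈ F ∧ T.b21 ∈ F ∧ T.b22 ∈ corner22 B F

/-- The norm of the Hilbert module `B ⊕ E`: `‖(c, z)‖ ^ 2 = ‖c^* c + ⟨z, z⟩‖`. -/
noncomputable def pairNorm (c : B) (z : E) : ℝ :=
  Real.sqrt ‖star c * c + ip z z‖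

/-- The C*-norm of a block matrix `T = (b, y^*; x, k)`: its norm as the operator
`(c, z) ↦ (b c + ⟨y, z⟩, x c + k z)` on the Hilbert module `B_E ⊕ E`, where `B_E` is the closed
linear span of `⟨E, E⟩`. -/
noncomputable def blockNorm (T : Block B E) : ℝ :=
  sInf {r : ℝ | 0 ≤ r ∧ ∀ c ∈ corner11 B (⊤ : Submodule ℂ E), ∀ z : E,
    pairNorm B (T.b11 * c + ip T.b12 z) (act T.b21 c + T.b22 z) ≤ r * pairNorm B c z}

/-- A linear map between spaces of block matrices which maps each `ij`-corner into the `ij`-corner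
is given by four maps, one for each corner. (On the `12`-corner `E^*` it is `y^* ↦ (φ12 y)^*`.) -/
structure BlockMap (B E : Type*) [NonUnitalCStarAlgebra B] [NormedAddCommGroup E]
    [NormedSpace ℂ E] where
  /-- the map on the `11`-corner -/
  φ11 : B → B
  /-- the map on the `12`-corner, `y^* ↦ (φ12 y)^*` -/
  φ12 : E → E
  /-- the map on the `21`-corner -/
  φ21 : E → E
  /-- the map on the `22`-corner -/
  φ22 : (E →L[ℂ] E) → (E →L[ℂ] E)

/-- The value of a blockwise map at a block matrix. -/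
def BlockMap.app {B E : Type*} [NonUnitalCStarAlgebra B] [NormedAddCommGroup E]
    [NormedSpace ℂ E] (Φ : BlockMap B E) (T : Block B E) : Block B E :=
  ⟨Φ.φ11 T.b11, Φ.φ12 T.b12, Φ.φ21 T.b21, Φ.φ22 T.b22⟩

/-- The map `f` is linear on the subspace `S`. -/
def IsLinearOn {V : Type*} [AddCommGroup V] [Module ℂ V] (S : Submodule ℂ V) (f : V → V) : Prop :=
  ∀ t : ℂ, ∀ v ∈ S, ∀ w ∈ S, f (t • v + w) = t • f v + f w

/-- The blockwise map `Φ` is linear on the reduced linking algebra of `E`, that is, each of its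
four corner maps is linear on its corner. -/
structure IsLinearBlockMap (Φ : BlockMap B E) : Prop where
  lin11 : IsLinearOn (corner11 B (⊤ : Submodule ℂ E)) Φ.φ11
  lin12 : IsLinearOn (⊤ : Submodule ℂ E) Φ.φ12
  lin21 : IsLinearOn (⊤ : Submodule ℂ E) Φ.φ21
  lin22 : IsLinearOn (corner22 B (⊤ : Submodule ℂ E)) Φ.φ22

/-- `Φ` is a blockwise conditional expectation of the reduced linking algebra of `E` onto the
reduced linking algebra of `F`: a linear idempotent onto it, of norm at most one (hence of norm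
one, unless `F = 0`), which maps each `ij`-corner into the `ij`-corner. -/
structure IsBlockwiseCondExp (F : Submodule ℂ E) (Φ : BlockMap B E) : Prop where
  linear : IsLinearBlockMap B Φ
  maps_into : ∀ T : Block B E, InLinking B ⊤ T → InLinking B F (Φ.app T)
  map_self : ∀ T : Block B E, InLinking B F T → Φ.app T = T
  norm_le : ∀ T : Block B E, InLinking B ⊤ T → blockNorm B (Φ.app T) ≤ blockNorm B T

/-- `EE` is a conditional expectation of `E` onto `F`: it is the restriction to the `21`-corner of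
a blockwise conditional expectation between the reduced linking algebras. -/
def IsConditionalExpectation (F : Submodule ℂ E) (EE : E → E) : Prop :=
  ∃ Φ : BlockMap B E, IsBlockwiseCondExp B F Φ ∧ Φ.φ21 = EE

end General

/-- Every C*-algebra `B` is a Hilbert module over itself, with `⟨x, y⟩ = x^* y`. -/
noncomputable instance selfModule (B : Type*) [NonUnitalCStarAlgebra B] : HilbertModule B B where
  act x b := x * b
  ip x y := star x * y
  act_add := mul_add
  add_act := add_mul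
  act_mul x b c := (mul_assoc x b c).symm
  smul_act t x b := smul_mul_assoc t x b
  act_smul t x b := mul_smul_comm t x b
  ip_add x y z := mul_add _ _ _
  ip_smul t x y := mul_smul_comm t _ _
  ip_act x y b := (mul_assoc _ _ _).symm
  star_ip x y := by simp
  ip_self_pos x := ⟨x, rfl⟩
  norm_sq_eq x := by rw [CStarRing.norm_star_mul_self, sq]

/-- The idempotent `(a, b) ↦ (2 a - b, 2 a - b)` of `ℂ × ℂ`. -/
noncomputable def exampleMap : (ℂ × ℂ) →L[ℂ] (ℂ × ℂ) :=
  ((2 : ℂ) • ContinuousLinearMap.fst ℂ ℂ ℂ - ContinuousLinearMap.snd ℂ ℂ ℂ).smulRight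
    ((1, 1) : ℂ × ℂ)

theorem exampleMap_apply (v : ℂ × ℂ) : exampleMap v = (2 * v.1 - v.2, 2 * v.1 - v.2) := by
  simp [exampleMap]

/-- The diagonal `ℂ (1, 1)` of `ℂ × ℂ`. -/
def diagonal : Submodule ℂ (ℂ × ℂ) := Submodule.span ℂ {((1, 1) : ℂ × ℂ)}

open scoped ComplexOrder in
theorem norm_le_pairNorm (c z : ℂ × ℂ) : ‖c‖ ≤ pairNorm (ℂ × ℂ) c z := by
  have h : pairNorm (ℂ × ℂ) c z = Real.sqrt ‖star c * c + star z * z‖ := rfl
  rw [h]
  apply Real.le_sqrt_of_sq_le
  rw [sq, ← CStarRing.norm_star_mul_self]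
  apply CStarAlgebra.norm_le_norm_of_nonneg_of_le (star_mul_self_nonneg c)
  exact le_add_of_nonneg_right (star_mul_self_nonneg z)

/-- Answer to the question (negative): the C*-algebra `ℂ × ℂ`, as a Hilbert module over itself, has
a closed ternary subspace `F` and a bounded linear idempotent `EE` with range `F`, of norm `3`,
satisfying `EE (EE x ⟨y, EE z⟩) = EE x ⟨EE y, EE z⟩` for all `x, y, z`, which is not a conditional
expectation of `E` onto `F`. -/
theorem result : ∃ (F : Submodule ℂ (ℂ × ℂ)) (EE : (ℂ × ℂ) →L[ℂ] (ℂ × ℂ)),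
    IsClosedTernary (ℂ × ℂ) F ∧
    IsTernaryIdempotent (ℂ × ℂ) F EE.toLinearMap ∧
    ‖EE‖ = 3 ∧
    ¬ IsConditionalExpectation (ℂ × ℂ) F EE := by
  have hact : ∀ x b : ℂ × ℂ, act x b = x * b := fun _ _ => rfl
  have hip : ∀ x y : ℂ × ℂ, (ip x y : ℂ × ℂ) = star x * y := fun _ _ => rfl
  have htern : ∀ x y z : ℂ × ℂ, tern (ℂ × ℂ) x y z = x * (star y * z) := fun _ _ _ => rfl
  have happ := exampleMap_apply
  have hmem : ∀ v : ℂ × ℂ, v ∈ diagonal ↔ v.1 = v.2 := by
    intro v
    simp only [diagonal, Submodule.mem_span_singleton]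
    constructor
    · rintro ⟨a, rfl⟩
      simp
    · intro h
      refine ⟨v.1, ?_⟩
      ext <;> simp [h]
  have hE3 : exampleMap ((1, -1) : ℂ × ℂ) = (3, 3) := by
    rw [happ]; norm_num
  refine ⟨diagonal, exampleMap, ⟨?_, ?_⟩, ⟨?_, ?_, ?_⟩, ?_, ?_⟩
  · exact Submodule.closed_of_finiteDimensional _
  · intro x hx y hy z hz
    rw [hmem] at *
    rw [htern]
    simp [hx, hy, hz]
  · intro x
    simp only [ContinuousLinearMap.coe_coe]
    rw [happ (exampleMap x), happ x]
    ext <;> simp <;> ring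
  · ext v
    rw [hmem, LinearMap.mem_range]
    constructor
    · rintro ⟨w, rfl⟩
      simp [happ]
    · intro h
      refine ⟨v, ?_⟩
      simp only [ContinuousLinearMap.coe_coe, happ]
      ext <;> simp [← h] <;> ring
  · intro x y z
    simp only [ContinuousLinearMap.coe_coe, htern, happ]
    ext <;> simp <;> ring
  · apply le_antisymm
    · refine ContinuousLinearMap.opNorm_le_bound _ (by norm_num) (fun v => ?_)
      rw [happ]
      have h1 : ‖v.1‖ ≤ ‖v‖ := norm_fst_le v
      have h2 : ‖v.2‖ ≤ ‖v‖ := norm_snd_le v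
      have h3 : ‖2 * v.1 - v.2‖ ≤ 3 * ‖v‖ := by
        calc ‖2 * v.1 - v.2‖ ≤ ‖2 * v.1‖ + ‖v.2‖ := norm_sub_le _ _
          _ = 2 * ‖v.1‖ + ‖v.2‖ := by rw [norm_mul]; norm_num
          _ ≤ 3 * ‖v‖ := by linarith
      rw [Prod.norm_def]
      exact max_le h3 h3
    · have h := exampleMap.le_opNorm ((1, -1) : ℂ × ℂ)
      rw [hE3, Prod.norm_def, Prod.norm_def] at h
      simpa using h
  · rintro ⟨Φ, hΦ, h21⟩
    -- matrices with `x` in the 21-corner and zeros elsewhere
    have hcor : ∀ x : ℂ × ℂ, InLinking (ℂ × ℂ) (⊤ : Submodule ℂ (ℂ × ℂ))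
        (⟨0, 0, x, 0⟩ : Block (ℂ × ℂ) (ℂ × ℂ)) := by
      intro x
      exact ⟨Submodule.zero_mem _, Submodule.zero_mem _, Submodule.mem_top, Submodule.zero_mem _⟩
    have hone : ((1 : ℂ × ℂ)) ∈ corner11 (ℂ × ℂ) (⊤ : Submodule ℂ (ℂ × ℂ)) := by
      apply Submodule.le_topologicalClosure
      apply Submodule.subset_span
      exact ⟨1, Submodule.mem_top, 1, Submodule.mem_top, by rw [hip]; simp⟩
    have hnorm1 : ∀ z : ℂ × ℂ, pairNorm (ℂ × ℂ) (0 : ℂ × ℂ) z = ‖z‖ := by
      intro z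
      simp only [pairNorm, hip, star_zero, mul_zero, zero_add]
      rw [CStarRing.norm_star_mul_self, Real.sqrt_mul_self (norm_nonneg z)]
    have hact21 : ∀ (x c z : ℂ × ℂ),
        pairNorm (ℂ × ℂ) ((0 : ℂ × ℂ) * c + ip (0 : ℂ × ℂ) z)
          (act x c + (0 : (ℂ × ℂ) →L[ℂ] (ℂ × ℂ)) z) = ‖x * c‖ := by
      intro x c z
      rw [← hnorm1]
      congr 1
      · rw [hip]; simp
      · rw [hact]; simp
    have hbound : ∀ (x : ℂ × ℂ), 0 ≤ ‖x‖ ∧ ∀ c ∈ corner11 (ℂ × ℂ) (⊤ : Submodule ℂ (ℂ × ℂ)),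
        ∀ z : ℂ × ℂ, pairNorm (ℂ × ℂ) ((0 : ℂ × ℂ) * c + ip (0 : ℂ × ℂ) z)
          (act x c + (0 : (ℂ × ℂ) →L[ℂ] (ℂ × ℂ)) z) ≤ ‖x‖ * pairNorm (ℂ × ℂ) c z := by
      intro x
      refine ⟨norm_nonneg x, fun c _ z => ?_⟩
      rw [hact21]
      exact (norm_mul_le x c).trans
        (mul_le_mul_of_nonneg_left (norm_le_pairNorm c z) (norm_nonneg x))
    have hupper : ∀ x : ℂ × ℂ,
        blockNorm (ℂ × ℂ) (⟨0, 0, x, 0⟩ : Block (ℂ × ℂ) (ℂ × ℂ)) ≤ ‖x‖ := by
      intro x
      exact csInf_le ⟨0, fun r hr => hr.1⟩ (hbound x)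
    have hlower : ∀ x : ℂ × ℂ,
        ‖x‖ ≤ blockNorm (ℂ × ℂ) (⟨0, 0, x, 0⟩ : Block (ℂ × ℂ) (ℂ × ℂ)) := by
      intro x
      apply le_csInf ⟨‖x‖, hbound x⟩
      rintro r ⟨_, hr⟩
      have h := hr 1 hone 0
      have h1 : pairNorm (ℂ × ℂ) (1 : ℂ × ℂ) (0 : ℂ × ℂ) = 1 := by
        simp [pairNorm, hip]
      rw [h1] at h
      have h2 := hact21 x 1 0
      simp only at h
      rw [h2] at h
      simpa using h
    -- the other three entries of `Φ (0, 0, x, 0)` vanish
    have happΦ : ∀ x : ℂ × ℂ, Φ.app (⟨0, 0, x, 0⟩ : Block (ℂ × ℂ) (ℂ × ℂ)) =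
        ⟨0, 0, exampleMap x, 0⟩ := by
      intro x
      have h0 := hΦ.map_self ⟨0, 0, 0, 0⟩ ⟨Submodule.zero_mem _, Submodule.zero_mem _,
        Submodule.zero_mem _, Submodule.zero_mem _⟩
      simp only [BlockMap.app, Block.mk.injEq] at h0 ⊢
      exact ⟨h0.1, h0.2.1, by rw [h21], h0.2.2.2⟩
    have h := hΦ.norm_le ⟨0, 0, (1, -1), 0⟩ (hcor _)
    rw [happΦ] at h
    have h3 := (hlower _).trans (h.trans (hupper _))
    rw [hE3, Prod.norm_def, Prod.norm_def] at h3
    norm_num at h3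

end Pool.Agent.Results.MP_0a1256_an.TernaryIdempotent
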